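import Pool.Agent.H.MP_4f0cf1_nt.C

namespace Pool.Agent.Results.MP_c81705_nt.Q1

open NumberField Pool.Agent.H.MP_4f0cf1_nt

/-- The determinant `D_p`, for `x, y, z, w` in any commutative ring. -/
def D (p : ℕ) [Fact p.Prime] {R : Type} [CommRing R] (x y z w : R) : R :=
  (Matrix.of fun j k : Fin ((p - 1) / 2 + 1) => x + (legendreSym p ((j : ℕ) + (k : ℕ)) : R) +
    (legendreSym p ((j : ℕ) - (k : ℕ)) : R) + (legendreSym p (j : ℕ) : R) * y +
    (legendreSym p (k : ℕ) : R) * z + (legendreSym p ((j : ℕ) * (k : ℕ)) : R) * w).det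

theorem result (p : ℕ) [Fact p.Prime] (hp : 3 < p) (R : Type) [CommRing R] (x y z w : R) :
    (p % 4 = 1 → D p x y z w = (legendreSym p 2 : R) * (p : R) ^ ((p + 3) / 4) * x) ∧
    (p % 4 = 3 → ∀ (K : Type) [Field K] [NumberField K], Module.finrank ℚ K = 2 →
      ∀ s : K, s ^ 2 = -p → D p x y z w = (-1) ^ ((classNumber K - 1) / 2) *
        (p : R) ^ ((p - 3) / 4) * (p * x + (2 - (legendreSym p 2 : R)) * classNumber K *
          ((y + 2) * z - w * x))) := by
  have ho := (Fact.out : p.Prime).eq_two_or_odd.resolve_left (by omega)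
  have h1 : p = 2 * ((p - 1) / 2) + 1 := by omega
  refine ⟨fun h => ?_, fun h K _ _ hK s hs => ?_⟩
  · refine .trans (by simp [D, c_leg]) ((q1_one h1 h x y z w).trans ?_)
    rw [A_map, det_one' h1 h, show (p + 3) / 4 = (p - 5) / 4 + 2 by omega]
    push_cast
    ring
  · obtain ⟨a1, -, a2⟩ := det_h (R := R) h1 h hp hK hs
    refine .trans (by simp [D, c_leg]) ((q1_three h1 h x y z w).trans ?_)
    rw [a1, a2, c_leg, Int.cast_ofNat]

end Pool.Agent.Results.MP_c81705_nt.Q1
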