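import Pool.Agent.H.MP_4f0cf1_nt.C

namespace Pool.Agent.Results.MP_c81705_nt.Q2

open Pool.Agent.H.MP_4f0cf1_nt

/-- The determinant `E_p`, for `y, z` in any commutative ring. -/
def E (p : ℕ) [Fact p.Prime] {R : Type} [CommRing R] (y z : R) : R :=
  (Matrix.of fun j k : Fin ((p - 1) / 2 + 1) => (legendreSym p ((j : ℕ) + (k : ℕ)) : R) -
    (legendreSym p ((j : ℕ) - (k : ℕ)) : R) + (legendreSym p (j : ℕ) : R) * y +
    (legendreSym p (k : ℕ) : R) * z).det

theorem result (p : ℕ) [Fact p.Prime] (hp : p % 4 = 1) : ∃ c : ℤ, ∀ (R : Type) [CommRing R]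
    (y z : R), E p y z = 4 * (p : R) ^ ((p - 5) / 4) * c * y * z := by
  obtain ⟨d, hd⟩ := q2 (show p = 2 * ((p - 1) / 2) + 1 by omega) hp
  exact ⟨d, fun R _ y z => .trans (by simp [E, c_leg]) (hd R y z)⟩

end Pool.Agent.Results.MP_c81705_nt.Q2
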